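import Mathlib
import Pool.Agent.Y521.Fin

/-!
# Convex hypersurfaces are not `C¹`-dense

There are a contact manifold `Y` of dimension `7` and a closed connected hypersurface in `Y` which
has a neighbourhood, in the `C¹` topology on embeddings, containing no convex hypersurface.

The manifold `Y` is `M⁴ × ℝ³`, where `M⁴` is the mapping torus of a hyperbolic automorphism of the
three-torus with three distinct positive eigenvalues, and the contact form is
`dη + θ₁ + r θ₂ + s θ₃`, where `θ₁, θ₂, θ₃` are the invariant one-forms of `M⁴`, with
`dθᵢ = mᵢ dt ∧ θᵢ`. The hypersurface is a copy of `M⁴ × T²`. Its characteristic foliation has, and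
the characteristic foliations of all `C¹`-close hypersurfaces have, an orbit which goes from the
region of negative divergence to the region of positive divergence and stays in these regions for
all large negative and positive times; such an orbit excludes a transverse contact vector field.
-/

open scoped Topology ContDiff Manifold
open Set Pool.Agent.W630 Pool.Agent.Helper186 Pool.Agent.Y521

namespace Pool.Agent.Results.MP_2d5ab3_gt.RobustlyNonConvex

/-- **Convex hypersurfaces are not `C¹`-dense.** There are a contact manifold `(Y, α)` of
dimension `7`, a closed connected manifold `S` of dimension `6`, an embedding `f` of `S` in `Y` and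
a neighbourhood `U` of `f` in the space of all smooth embeddings of `S` in `Y` with the `C¹`
topology, such that for every embedding `g` in `U` the hypersurface `g(S)` is not convex. -/
theorem result :
    ∃ (E : Type) (_ : NormedAddCommGroup E) (_ : NormedSpace ℝ E)
      (Y : Type) (_ : TopologicalSpace Y) (_ : ChartedSpace E Y) (_ : IsManifold 𝓘(ℝ, E) ∞ Y)
      (α : OneForm E Y)
      (G : Type) (_ : NormedAddCommGroup G) (_ : NormedSpace ℝ G)
      (S : Type) (_ : TopologicalSpace S) (_ : ChartedSpace G S) (_ : IsManifold 𝓘(ℝ, G) ∞ S),
      (Module.finrank ℝ E = 7 ∧ T2Space Y ∧ SecondCountableTopology Y ∧ ConnectedSpace Y ∧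
        IsContactForm α) ∧
      (Module.finrank ℝ G = 6 ∧ T2Space S ∧ CompactSpace S ∧ ConnectedSpace S) ∧
      ∃ f : EmbSpace G S E Y, ∃ U ∈ 𝓝 f, ∀ g ∈ U, ¬ IsConvexHyp α G g.1 := by
  refine ⟨VM, inferInstance, inferInstance, Mfd, inferInstance, inferInstance, inferInstance, alM,
    VS, inferInstance, inferInstance, Hyp, inferInstance, inferInstance, inferInstance,
    ⟨finrank_VM, inferInstance, inferInstance, inferInstance, isContactForm_alM⟩,
    ⟨finrank_VS, inferInstance, inferInstance, inferInstance⟩, ?_⟩
  obtain ⟨f, hf⟩ := Y521.main
  rw [mem_closure_iff_nhds] at hf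
  push Not at hf
  obtain ⟨U, hU, h⟩ := hf
  refine ⟨f, U, hU, fun g hg hc => ?_⟩
  have : g ∈ U ∩ {g : EmbSpace VS Hyp VM Mfd | IsConvexHyp alM VS g.1} := ⟨hg, hc⟩
  rw [h] at this
  exact this

end Pool.Agent.Results.MP_2d5ab3_gt.RobustlyNonConvex
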